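import Mathlib

set_option autoImplicit false

/-!
T6A: polynomial growth of the Hurwitz zeta function in `-1/2 ≤ Re s ≤ 3`, `|Im s| ≥ 1`
(second order Euler-Maclaurin / trapezoidal rule and the identity theorem).
-/

namespace Pool.Agent.H405R2.SM

open Filter Topology Set

noncomputable section

/-- error of the trapezoidal rule for `t ^ (-s)` on `[c, c+1]` -/
def gE (c : ℝ) (s : ℂ) : ℂ :=
  ((c : ℂ) ^ (-s) + ((c : ℂ) + 1) ^ (-s)) / 2 -
    (((c : ℂ) + 1) ^ (1 - s) - (c : ℂ) ^ (1 - s)) / (1 - s)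

lemma hasDerivAt_P (c : ℝ) (w : ℂ) (u : ℝ) (h : 0 < c + u) :
    HasDerivAt (fun v : ℝ => ((c : ℂ) + (v : ℂ)) ^ w) (w * ((c : ℂ) + (u : ℂ)) ^ (w - 1)) u := by
  have h1 : HasDerivAt (fun z : ℂ => (c : ℂ) + z) 1 (u : ℂ) := (hasDerivAt_id _).const_add _
  have h2 : (c : ℂ) + (u : ℂ) ∈ Complex.slitPlane := by
    rw [← Complex.ofReal_add]
    exact Complex.ofReal_mem_slitPlane.mpr h
  have h3 := (h1.cpow_const (c := w) h2).comp_ofReal
  simpa using h3

lemma gE_bound (c : ℝ) (hc : 0 < c) (s : ℂ) (hs : s ≠ 1) (hre : -2 ≤ s.re) :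
    ‖gE c s‖ ≤ 1 / 8 * ‖s‖ * ‖s + 1‖ * c ^ (-s.re - 2) := by
  have hs1 : (1 : ℂ) - s ≠ 0 := sub_ne_zero.mpr hs.symm
  set G : ℝ → ℂ := fun u => (1 / 2 * ((u : ℂ) * (1 - u))) * (-s * ((c : ℂ) + u) ^ (-s - 1)) -
    (1 / 2 * (1 - 2 * (u : ℂ))) * ((c : ℂ) + u) ^ (-s) - ((c : ℂ) + u) ^ (1 - s) / (1 - s) with hG
  have hder : ∀ u ∈ Icc (0 : ℝ) 1, HasDerivWithinAt G
      ((1 / 2 * ((u : ℂ) * (1 - u))) * (s * (s + 1) * ((c : ℂ) + u) ^ (-s - 2))) (Icc (0 : ℝ) 1) u := by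
    intro u hu
    apply HasDerivAt.hasDerivWithinAt
    have hcu : 0 < c + u := by linarith [hu.1]
    have hid : HasDerivAt (fun v : ℝ => (v : ℂ)) 1 u := Complex.ofRealCLM.hasDerivAt
    have d1 : HasDerivAt (fun v : ℝ => (1 / 2 * ((v : ℂ) * (1 - v)) : ℂ))
        (1 / 2 * (1 * (1 - (u : ℂ)) + (u : ℂ) * (-1))) u := by
      have := (hid.mul (hid.const_sub 1)).const_mul (1 / 2 : ℂ)
      simpa using this
    have d2 := (hasDerivAt_P c (-s - 1) u hcu).const_mul (-s)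
    have d3 : HasDerivAt (fun v : ℝ => (1 / 2 * (1 - 2 * (v : ℂ)) : ℂ)) (1 / 2 * (-(2 * 1))) u := by
      have := ((hid.const_mul 2).const_sub 1).const_mul (1 / 2 : ℂ)
      simpa using this
    have d4 := hasDerivAt_P c (-s) u hcu
    have d5 := (hasDerivAt_P c (1 - s) u hcu).div_const (1 - s)
    have d6 := ((d1.mul d2).sub (d3.mul d4)).sub d5
    refine d6.congr_deriv ?_
    have e1 : -s - 1 - 1 = -s - 2 := by ring
    have e2 : 1 - s - 1 = -s := by ring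
    have e3 : (1 - s) * ((c : ℂ) + (u : ℂ)) ^ (-s) / (1 - s) = ((c : ℂ) + (u : ℂ)) ^ (-s) := by
      field_simp
    rw [e1, e2, e3]
    ring
  have hbd : ∀ u ∈ Ico (0 : ℝ) 1, ‖(1 / 2 * ((u : ℂ) * (1 - u))) *
      (s * (s + 1) * ((c : ℂ) + u) ^ (-s - 2))‖ ≤ 1 / 8 * ‖s‖ * ‖s + 1‖ * c ^ (-s.re - 2) := by
    intro u hu
    have hcu : 0 < c + u := by linarith [hu.1]
    have h1 : ‖(1 / 2 * ((u : ℂ) * (1 - u)) : ℂ)‖ ≤ 1 / 8 := by
      have e1 : (1 / 2 * ((u : ℂ) * (1 - u)) : ℂ) = ((1 / 2 * (u * (1 - u)) : ℝ) : ℂ) := by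
        push_cast; ring
      rw [e1, Complex.norm_real, Real.norm_of_nonneg]
      · nlinarith [sq_nonneg (u - 1 / 2)]
      · have := hu.1
        have := hu.2
        have : 0 ≤ u * (1 - u) := mul_nonneg hu.1 (by linarith)
        linarith
    have h2 : ‖((c : ℂ) + u) ^ (-s - 2)‖ ≤ c ^ (-s.re - 2) := by
      rw [← Complex.ofReal_add, Complex.norm_cpow_eq_rpow_re_of_pos hcu]
      have e2 : (-s - 2 : ℂ).re = -s.re - 2 := by simp
      rw [e2]
      exact Real.rpow_le_rpow_of_nonpos hc (by linarith [hu.1]) (by linarith)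
    calc ‖(1 / 2 * ((u : ℂ) * (1 - u))) * (s * (s + 1) * ((c : ℂ) + u) ^ (-s - 2))‖
        = ‖(1 / 2 * ((u : ℂ) * (1 - u)) : ℂ)‖ * (‖s‖ * ‖s + 1‖ * ‖((c : ℂ) + u) ^ (-s - 2)‖) := by
          rw [norm_mul, norm_mul (s * (s + 1)), norm_mul s]
      _ ≤ 1 / 8 * (‖s‖ * ‖s + 1‖ * c ^ (-s.re - 2)) := by gcongr
      _ = _ := by ring
  have hmain := norm_image_sub_le_of_norm_deriv_le_segment_01' hder hbd
  have hval : G 1 - G 0 = gE c s := by
    simp only [hG, gE]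
    push_cast
    simp only [add_zero, sub_self, mul_zero, zero_mul, sub_zero, zero_sub, mul_one]
    ring
  rwa [hval] at hmain

lemma differentiableOn_gE (c : ℝ) (hc : 0 < c) {U : Set ℂ} (h1 : (1 : ℂ) ∉ U) :
    DifferentiableOn ℂ (gE c) U := by
  intro s hs
  apply DifferentiableAt.differentiableWithinAt
  have hs1 : (1 : ℂ) - s ≠ 0 := by
    intro h
    apply h1
    rw [sub_eq_zero.mp h]
    exact hs
  have hc1 : (c : ℂ) ≠ 0 := by exact_mod_cast hc.ne'
  have hc2 : (c : ℂ) + 1 ≠ 0 := by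
    have : ((c + 1 : ℝ) : ℂ) ≠ 0 := by exact_mod_cast (by linarith : c + 1 ≠ 0)
    simpa using this
  unfold gE
  apply DifferentiableAt.fun_sub
  · apply DifferentiableAt.div_const
    apply DifferentiableAt.fun_add
    · exact differentiableAt_id.fun_neg.const_cpow (Or.inl hc1)
    · exact differentiableAt_id.fun_neg.const_cpow (Or.inl hc2)
  · apply DifferentiableAt.fun_div _ _ hs1
    · apply DifferentiableAt.fun_sub
      · exact ((differentiableAt_const _).fun_sub differentiableAt_id).const_cpow (Or.inl hc2)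
      · exact ((differentiableAt_const _).fun_sub differentiableAt_id).const_cpow (Or.inl hc1)
    · exact (differentiableAt_const _).fun_sub differentiableAt_id

/-- term bound, uniform -/
lemma rpow_bound (a : ℝ) (ha : 0 < a) (ha1 : a ≤ 1) (n : ℕ) (σ : ℝ) (h1 : -(3 / 4) ≤ σ)
    (h2 : σ ≤ 4) : ((n : ℝ) + a) ^ (-σ - 2) ≤ ((1 : ℝ) / a) ^ (6 : ℕ) * ((n : ℝ) + 1) ^ (-(5 / 4) : ℝ) := by
  have hn : (0 : ℝ) ≤ n := Nat.cast_nonneg n
  have h3 : ((n : ℝ) + 1) * a ≤ (n : ℝ) + a := by nlinarith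
  have h4 : 0 < ((n : ℝ) + 1) * a := by positivity
  calc ((n : ℝ) + a) ^ (-σ - 2) ≤ (((n : ℝ) + 1) * a) ^ (-σ - 2) :=
        Real.rpow_le_rpow_of_nonpos h4 h3 (by linarith)
    _ = ((n : ℝ) + 1) ^ (-σ - 2) * a ^ (-σ - 2) := Real.mul_rpow (by positivity) ha.le
    _ ≤ ((n : ℝ) + 1) ^ (-(5 / 4) : ℝ) * ((1 : ℝ) / a) ^ (6 : ℕ) := by
        have h5 : ((n : ℝ) + 1) ^ (-σ - 2) ≤ ((n : ℝ) + 1) ^ (-(5 / 4) : ℝ) :=
          Real.rpow_le_rpow_of_exponent_le (by linarith) (by linarith)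
        have h6 : a ^ (-σ - 2) ≤ ((1 : ℝ) / a) ^ (6 : ℕ) := by
          have h7 : a ^ (-σ - 2) ≤ a ^ (-6 : ℝ) :=
            Real.rpow_le_rpow_of_exponent_ge ha ha1 (by linarith)
          have h8 : a ^ (-6 : ℝ) = ((1 : ℝ) / a) ^ (6 : ℕ) := by
            rw [Real.rpow_neg ha.le, one_div, inv_pow]
            norm_cast
          rwa [h8] at h7
        exact mul_le_mul h5 h6 (by positivity) (by positivity)
    _ = _ := by ring

lemma summable_54 : Summable (fun n : ℕ => ((n : ℝ) + 1) ^ (-(5 / 4) : ℝ)) := by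
  have h1 : Summable (fun n : ℕ => 1 / ((n : ℝ)) ^ (5 / 4 : ℝ)) :=
    Real.summable_one_div_nat_rpow.mpr (by norm_num)
  have h2 := (summable_nat_add_iff 1).mpr h1
  refine h2.congr fun n => ?_
  rw [Real.rpow_neg (by positivity), one_div]
  push_cast
  rfl

/-- the representation for `Re s > 1` -/
lemma hurwitz_right (a : ℝ) (ha : 0 < a) (ha1 : a ≤ 1) (s : ℂ) (hs : 1 < s.re) (hs4 : s.re ≤ 4) :
    HurwitzZeta.hurwitzZeta (a : UnitAddCircle) s =
      (a : ℂ) ^ (-s) / 2 + (a : ℂ) ^ (1 - s) / (s - 1) + ∑' n : ℕ, gE (n + a) s := by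
  have hs1 : s ≠ 1 := by
    intro h
    rw [h] at hs
    simp at hs
  have hs1' : (1 : ℂ) - s ≠ 0 := sub_ne_zero.mpr hs1.symm
  have hs1'' : s - 1 ≠ 0 := sub_ne_zero.mpr hs1
  set Z := HurwitzZeta.hurwitzZeta (a : UnitAddCircle) s with hZ
  have hA : HasSum (fun n : ℕ => ((n : ℂ) + a) ^ (-s)) Z := by
    have := HurwitzZeta.hasSum_hurwitzZeta_of_one_lt_re (a := a) ⟨ha.le, ha1⟩ hs
    refine this.congr_fun fun n => ?_
    rw [Complex.cpow_neg, one_div]
  have hB : HasSum (fun n : ℕ => ((n : ℂ) + a + 1) ^ (-s)) (Z - (a : ℂ) ^ (-s)) := by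
    have h1 := (hasSum_nat_add_iff' 1).mpr hA
    simp only [Finset.range_one, Finset.sum_singleton, Nat.cast_zero, zero_add] at h1
    refine h1.congr_fun fun n => ?_
    push_cast
    congr 1
    ring
  have hC : Summable (fun n : ℕ => gE (n + a) s) := by
    apply Summable.of_norm_bounded (g := fun n : ℕ => 1 / 8 * ‖s‖ * ‖s + 1‖ *
      (((1 : ℝ) / a) ^ (6 : ℕ) * ((n : ℝ) + 1) ^ (-(5 / 4) : ℝ)))
    · exact (summable_54.mul_left _).mul_left _
    · intro n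
      have h2 := gE_bound (n + a) (by positivity) s hs1 (by linarith)
      refine h2.trans ?_
      gcongr
      exact rpow_bound a ha ha1 n s.re (by linarith) hs4
  -- the telescoping part
  set b : ℕ → ℂ := fun n => ((n : ℂ) + a) ^ (1 - s) with hb
  have hDs : Summable (fun n : ℕ => (b (n + 1) - b n) / (1 - s)) := by
    have h1 := ((hA.add hB).summable.div_const 2).sub hC
    refine h1.congr fun n => ?_
    simp only [gE, hb]
    push_cast
    rw [show (n : ℂ) + 1 + a = (n : ℂ) + a + 1 by ring]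
    ring
  have hlim : Tendsto (fun N : ℕ => ∑ n ∈ Finset.range N, (b (n + 1) - b n) / (1 - s)) atTop
      (𝓝 ((0 - b 0) / (1 - s))) := by
    have h1 : ∀ N : ℕ, ∑ n ∈ Finset.range N, (b (n + 1) - b n) / (1 - s) = (b N - b 0) / (1 - s) := by
      intro N
      rw [← Finset.sum_div, Finset.sum_range_sub]
    simp only [h1]
    apply Tendsto.div_const
    apply Tendsto.sub_const
    rw [tendsto_zero_iff_norm_tendsto_zero]
    have h2 : ∀ N : ℕ, ‖b N‖ = ((N : ℝ) + a) ^ (-(s.re - 1)) := by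
      intro N
      simp only [hb]
      have h3 : (N : ℂ) + (a : ℂ) = (((N : ℝ) + a : ℝ) : ℂ) := by push_cast; ring
      rw [h3, Complex.norm_cpow_eq_rpow_re_of_pos (by positivity)]
      congr 1
      simp
    simp only [h2]
    have h4 : Tendsto (fun x : ℝ => x ^ (-(s.re - 1))) atTop (𝓝 0) :=
      tendsto_rpow_neg_atTop (by linarith)
    exact h4.comp (tendsto_atTop_add_const_right _ _ tendsto_natCast_atTop_atTop)
  have hD : HasSum (fun n : ℕ => (b (n + 1) - b n) / (1 - s)) ((0 - b 0) / (1 - s)) := by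
    have h1 := hDs.hasSum
    have h2 := tendsto_nhds_unique h1.tendsto_sum_nat hlim
    rwa [h2] at h1
  have hE := ((hA.add hB).div_const 2).sub hD
  have hF : HasSum (fun n : ℕ => gE (n + a) s)
      ((Z + (Z - (a : ℂ) ^ (-s))) / 2 - (0 - b 0) / (1 - s)) := by
    refine hE.congr_fun fun n => ?_
    simp only [gE, hb]
    push_cast
    rw [show (n : ℂ) + 1 + a = (n : ℂ) + a + 1 by ring]
  rw [hF.tsum_eq]
  simp only [hb, Nat.cast_zero, zero_add]
  field_simp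
  ring

/-- the representation on bounded convex regions to the right of `-3/4` -/
lemma hurwitz_formula (a : ℝ) (ha : 0 < a) (ha1 : a ≤ 1) (U : Set ℂ) (hUo : IsOpen U)
    (hUc : IsPreconnected U) (hU1 : ∀ s ∈ U, -(3 / 4) ≤ s.re ∧ s.re ≤ 4) (R : ℝ)
    (hR : ∀ s ∈ U, ‖s‖ ≤ R) (h1 : (1 : ℂ) ∉ U) (s0 : ℂ) (hs0 : s0 ∈ U) (hs0' : 1 < s0.re) :
    ∀ s ∈ U, HurwitzZeta.hurwitzZeta (a : UnitAddCircle) s =
      (a : ℂ) ^ (-s) / 2 + (a : ℂ) ^ (1 - s) / (s - 1) + ∑' n : ℕ, gE (n + a) s := by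
  have hne : ∀ s ∈ U, s ≠ 1 := fun s hs h => h1 (h ▸ hs)
  have hR0 : 0 ≤ R := (norm_nonneg _).trans (hR s0 hs0)
  have ha' : (a : ℂ) ≠ 0 := by exact_mod_cast ha.ne'
  have hL : DifferentiableOn ℂ (fun s => HurwitzZeta.hurwitzZeta (a : UnitAddCircle) s) U :=
    fun s hs => (HurwitzZeta.differentiableAt_hurwitzZeta _ (hne s hs)).differentiableWithinAt
  have hT : DifferentiableOn ℂ (fun s => ∑' n : ℕ, gE (n + a) s) U := by
    apply Complex.differentiableOn_tsum_of_summable_norm (u := fun n : ℕ => 1 / 8 * R * (R + 1) *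
      (((1 : ℝ) / a) ^ (6 : ℕ) * ((n : ℝ) + 1) ^ (-(5 / 4) : ℝ)))
    · exact (summable_54.mul_left _).mul_left _
    · intro n
      exact differentiableOn_gE _ (by positivity) h1
    · exact hUo
    · intro n s hs
      have h2 := gE_bound (n + a) (by positivity) s (hne s hs) (by linarith [(hU1 s hs).1])
      refine h2.trans ?_
      have h3 := hR s hs
      have h4 : ‖s + 1‖ ≤ R + 1 := (norm_add_le _ _).trans (by simpa using h3)
      have h5 := rpow_bound a ha ha1 n s.re (hU1 s hs).1 (hU1 s hs).2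
      gcongr
  have hRt : DifferentiableOn ℂ (fun s => (a : ℂ) ^ (-s) / 2 + (a : ℂ) ^ (1 - s) / (s - 1) +
      ∑' n : ℕ, gE (n + a) s) U := by
    apply DifferentiableOn.fun_add _ hT
    intro s hs
    apply DifferentiableAt.differentiableWithinAt
    apply DifferentiableAt.fun_add
    · apply DifferentiableAt.div_const
      exact differentiableAt_id.fun_neg.const_cpow (Or.inl ha')
    · apply DifferentiableAt.fun_div
      · exact ((differentiableAt_const _).fun_sub differentiableAt_id).const_cpow (Or.inl ha')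
      · exact differentiableAt_id.fun_sub (differentiableAt_const _)
      · exact sub_ne_zero.mpr (hne s hs)
  have hev : (fun s => HurwitzZeta.hurwitzZeta (a : UnitAddCircle) s) =ᶠ[𝓝 s0]
      (fun s => (a : ℂ) ^ (-s) / 2 + (a : ℂ) ^ (1 - s) / (s - 1) + ∑' n : ℕ, gE (n + a) s) := by
    have h2 : U ∩ {s : ℂ | 1 < s.re} ∈ 𝓝 s0 :=
      (hUo.inter (isOpen_lt continuous_const Complex.continuous_re)).mem_nhds ⟨hs0, hs0'⟩
    filter_upwards [h2] with s hs
    exact hurwitz_right a ha ha1 s hs.2 (hU1 s hs.1).2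
  exact (hL.analyticOnNhd hUo).eqOn_of_preconnected_of_eventuallyEq (hRt.analyticOnNhd hUo) hUc hs0 hev

/-- the representation in the strip away from the real axis -/
lemma hurwitz_strip (a : ℝ) (ha : 0 < a) (ha1 : a ≤ 1) (s : ℂ) (h1 : -(1 / 2) ≤ s.re)
    (h2 : s.re ≤ 3) (h3 : 1 ≤ |s.im|) :
    HurwitzZeta.hurwitzZeta (a : UnitAddCircle) s =
      (a : ℂ) ^ (-s) / 2 + (a : ℂ) ^ (1 - s) / (s - 1) + ∑' n : ℕ, gE (n + a) s := by
  set R : ℝ := ‖s‖ + 10 with hR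
  have hn := norm_nonneg s
  rcases le_abs.mp h3 with h4 | h4
  · set U : Set ℂ := ({z : ℂ | -(3 / 4) < z.re} ∩ {z : ℂ | z.re < 4}) ∩
      ({z : ℂ | 0 < z.im} ∩ Metric.ball 0 R) with hU
    have hUo : IsOpen U := by
      apply IsOpen.inter
      · exact (isOpen_lt continuous_const Complex.continuous_re).inter
          (isOpen_lt Complex.continuous_re continuous_const)
      · exact (isOpen_lt continuous_const Complex.continuous_im).inter Metric.isOpen_ball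
    have hUc : IsPreconnected U := by
      apply Convex.isPreconnected
      apply Convex.inter
      · exact (convex_halfSpace_re_gt _).inter (convex_halfSpace_re_lt _)
      · exact (convex_halfSpace_im_gt _).inter (convex_ball _ _)
    refine hurwitz_formula a ha ha1 U hUo hUc ?_ R ?_ ?_ (2 + Complex.I) ?_ (by simp) s ?_
    · rintro z ⟨⟨hz1, hz2⟩, -⟩
      exact ⟨hz1.le, hz2.le⟩
    · rintro z ⟨-, -, hz⟩
      rw [mem_ball_zero_iff] at hz
      exact hz.le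
    · rintro ⟨-, h5, -⟩
      simp at h5
    · refine ⟨⟨?_, ?_⟩, ?_, ?_⟩
      · simp only [mem_ofPred_eq, Complex.add_re, Complex.re_ofNat, Complex.I_re, add_zero]; norm_num
      · simp only [mem_ofPred_eq, Complex.add_re, Complex.re_ofNat, Complex.I_re, add_zero]; norm_num
      · simp
      · rw [mem_ball_zero_iff]
        calc ‖(2 : ℂ) + Complex.I‖ ≤ ‖(2 : ℂ)‖ + ‖Complex.I‖ := norm_add_le _ _
          _ < R := by rw [Complex.norm_I, hR]; norm_num; linarith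
    · refine ⟨⟨?_, ?_⟩, ?_, ?_⟩
      · change -(3 / 4) < s.re
        linarith
      · change s.re < 4
        linarith
      · change 0 < s.im
        linarith
      · rw [mem_ball_zero_iff, hR]
        linarith
  · set U : Set ℂ := ({z : ℂ | -(3 / 4) < z.re} ∩ {z : ℂ | z.re < 4}) ∩
      ({z : ℂ | z.im < 0} ∩ Metric.ball 0 R) with hU
    have hUo : IsOpen U := by
      apply IsOpen.inter
      · exact (isOpen_lt continuous_const Complex.continuous_re).inter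
          (isOpen_lt Complex.continuous_re continuous_const)
      · exact (isOpen_lt Complex.continuous_im continuous_const).inter Metric.isOpen_ball
    have hUc : IsPreconnected U := by
      apply Convex.isPreconnected
      apply Convex.inter
      · exact (convex_halfSpace_re_gt _).inter (convex_halfSpace_re_lt _)
      · exact (convex_halfSpace_im_lt _).inter (convex_ball _ _)
    refine hurwitz_formula a ha ha1 U hUo hUc ?_ R ?_ ?_ (2 - Complex.I) ?_ (by simp) s ?_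
    · rintro z ⟨⟨hz1, hz2⟩, -⟩
      exact ⟨hz1.le, hz2.le⟩
    · rintro z ⟨-, -, hz⟩
      rw [mem_ball_zero_iff] at hz
      exact hz.le
    · rintro ⟨-, h5, -⟩
      simp at h5
    · refine ⟨⟨?_, ?_⟩, ?_, ?_⟩
      · simp only [mem_ofPred_eq, Complex.sub_re, Complex.re_ofNat, Complex.I_re, sub_zero]; norm_num
      · simp only [mem_ofPred_eq, Complex.sub_re, Complex.re_ofNat, Complex.I_re, sub_zero]; norm_num
      · simp
      · rw [mem_ball_zero_iff]
        calc ‖(2 : ℂ) - Complex.I‖ ≤ ‖(2 : ℂ)‖ + ‖Complex.I‖ := norm_sub_le _ _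
          _ < R := by rw [Complex.norm_I, hR]; norm_num; linarith
    · refine ⟨⟨?_, ?_⟩, ?_, ?_⟩
      · change -(3 / 4) < s.re
        linarith
      · change s.re < 4
        linarith
      · change s.im < 0
        linarith
      · rw [mem_ball_zero_iff, hR]
        linarith

lemma exists_rep (h : ℕ) [NeZero h] (x : ZMod h) : ∃ a : ℝ, 1 / (h : ℝ) ≤ a ∧ a ≤ 1 ∧
    ZMod.toAddCircle x = (a : UnitAddCircle) := by
  have hh : 0 < h := Nat.pos_of_ne_zero (NeZero.ne h)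
  have hh' : (0 : ℝ) < h := by exact_mod_cast hh
  rcases eq_or_ne x 0 with rfl | hx
  · refine ⟨1, ?_, le_rfl, ?_⟩
    · rw [div_le_one hh']
      exact_mod_cast hh
    · rw [map_zero]
      have : ((1 : ℝ) : UnitAddCircle) = 0 := AddCircle.coe_period 1
      rw [this]
  · refine ⟨(x.val : ℝ) / h, ?_, ?_, ?_⟩
    · have : 1 ≤ x.val := Nat.one_le_iff_ne_zero.mpr ((ZMod.val_ne_zero x).mpr hx)
      have h2 : (1 : ℝ) ≤ x.val := by exact_mod_cast this
      gcongr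
    · rw [div_le_one hh']
      exact_mod_cast (ZMod.val_lt x).le
    · rw [ZMod.toAddCircle_apply]

/-- T6A -/
theorem hurwitz_growth (h : ℕ) [NeZero h] : ∃ C : ℝ, ∃ A : ℕ, ∀ (x : ZMod h) (s : ℂ),
    -(1 / 2) ≤ s.re → s.re ≤ 3 → 1 ≤ |s.im| →
      ‖HurwitzZeta.hurwitzZeta (ZMod.toAddCircle x) s‖ ≤ C * |s.im| ^ A := by
  have hh : 0 < h := Nat.pos_of_ne_zero (NeZero.ne h)
  have hh' : (0 : ℝ) < h := by exact_mod_cast hh
  have hh1 : (1 : ℝ) ≤ h := by exact_mod_cast hh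
  set Z0 : ℝ := ∑' n : ℕ, ((n : ℝ) + 1) ^ (-(5 / 4) : ℝ) with hZ0
  have hZ0' : 0 ≤ Z0 := tsum_nonneg fun n => by positivity
  refine ⟨(h : ℝ) ^ 3 + (h : ℝ) ^ 3 + 1 / 8 * 4 * 5 * ((h : ℝ) ^ 6 * Z0), 2, ?_⟩
  intro x s h1 h2 h3
  obtain ⟨a, ha0, ha1, hxa⟩ := exists_rep h x
  have ha : 0 < a := lt_of_lt_of_le (by positivity) ha0
  have hinv : 1 / a ≤ h := by
    rw [div_le_iff₀ ha]
    rw [div_le_iff₀ hh'] at ha0
    linarith
  have hinv0 : 0 ≤ 1 / a := by positivity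
  have hinv1 : 1 ≤ 1 / a := by
    rw [le_div_iff₀ ha]; linarith
  rw [hxa, hurwitz_strip a ha ha1 s h1 h2 h3]
  have hs1 : s ≠ 1 := by
    intro h4
    rw [h4] at h3
    simp at h3
    linarith
  set t := |s.im| with ht
  have ht2 : 1 ≤ t ^ 2 := one_le_pow₀ h3
  have hn1 : ‖s‖ ≤ 4 * t := by
    have := Complex.norm_le_abs_re_add_abs_im s
    have h5 : |s.re| ≤ 3 := abs_le.mpr ⟨by linarith, h2⟩
    linarith
  have hn2 : ‖s + 1‖ ≤ 5 * t := by
    have h6 : ‖s + 1‖ ≤ ‖s‖ + 1 := by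
      refine (norm_add_le _ _).trans ?_
      simp
    linarith
  have hn3 : t ≤ ‖s - 1‖ := by
    have := Complex.abs_im_le_norm (s - 1)
    simpa using this
  have hpow : ∀ w : ℂ, -3 ≤ w.re → ‖(a : ℂ) ^ w‖ ≤ (h : ℝ) ^ 3 := by
    intro w hw
    rw [Complex.norm_cpow_eq_rpow_re_of_pos ha]
    calc a ^ w.re ≤ a ^ (-3 : ℝ) := Real.rpow_le_rpow_of_exponent_ge ha ha1 hw
      _ = (1 / a) ^ (3 : ℕ) := by
          rw [Real.rpow_neg ha.le, one_div, inv_pow]
          norm_cast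
      _ ≤ (h : ℝ) ^ 3 := by gcongr
  have b1 : ‖(a : ℂ) ^ (-s) / 2‖ ≤ (h : ℝ) ^ 3 * t ^ 2 := by
    rw [norm_div]
    have h7 := hpow (-s) (by simp; linarith)
    have h8 : ‖(2 : ℂ)‖ = 2 := by norm_num
    rw [h8]
    have h9 : (h : ℝ) ^ 3 ≤ (h : ℝ) ^ 3 * t ^ 2 := le_mul_of_one_le_right (by positivity) ht2
    have h10 := norm_nonneg ((a : ℂ) ^ (-s))
    linarith
  have b2 : ‖(a : ℂ) ^ (1 - s) / (s - 1)‖ ≤ (h : ℝ) ^ 3 * t ^ 2 := by
    rw [norm_div]
    have h7 := hpow (1 - s) (by simp; linarith)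
    have h8 : ‖(a : ℂ) ^ (1 - s)‖ / ‖s - 1‖ ≤ (h : ℝ) ^ 3 / 1 := by
      apply div_le_div₀ (by positivity) h7 (by norm_num) (by linarith)
    have h9 : (h : ℝ) ^ 3 ≤ (h : ℝ) ^ 3 * t ^ 2 := le_mul_of_one_le_right (by positivity) ht2
    linarith
  have b3 : ‖∑' n : ℕ, gE (n + a) s‖ ≤ 1 / 8 * 4 * 5 * ((h : ℝ) ^ 6 * Z0) * t ^ 2 := by
    have hsum : HasSum (fun n : ℕ => 1 / 8 * (4 * t) * (5 * t) *
        ((h : ℝ) ^ 6 * ((n : ℝ) + 1) ^ (-(5 / 4) : ℝ)))
        (1 / 8 * (4 * t) * (5 * t) * ((h : ℝ) ^ 6 * Z0)) :=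
      (summable_54.hasSum.mul_left _).mul_left _
    refine (tsum_of_norm_bounded hsum ?_).trans (le_of_eq ?_)
    · intro n
      have h7 := gE_bound (n + a) (by positivity) s hs1 (by linarith)
      refine h7.trans ?_
      have h8 := rpow_bound a ha ha1 n s.re (by linarith) (by linarith)
      have h9 : ((1 : ℝ) / a) ^ (6 : ℕ) * ((n : ℝ) + 1) ^ (-(5 / 4) : ℝ) ≤
          (h : ℝ) ^ 6 * ((n : ℝ) + 1) ^ (-(5 / 4) : ℝ) := by gcongr
      have h10 := h8.trans h9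
      gcongr
    · ring
  calc ‖(a : ℂ) ^ (-s) / 2 + (a : ℂ) ^ (1 - s) / (s - 1) + ∑' n : ℕ, gE (n + a) s‖
      ≤ ‖(a : ℂ) ^ (-s) / 2‖ + ‖(a : ℂ) ^ (1 - s) / (s - 1)‖ + ‖∑' n : ℕ, gE (n + a) s‖ :=
        norm_add₃_le
    _ ≤ (h : ℝ) ^ 3 * t ^ 2 + (h : ℝ) ^ 3 * t ^ 2 + 1 / 8 * 4 * 5 * ((h : ℝ) ^ 6 * Z0) * t ^ 2 := by
        gcongr
    _ = _ := by ring

end

end Pool.Agent.H405R2.SM
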